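import Pool.Agent.helper31.RLS.Spec
import Pool.Agent.helper22.PD.Mertens2

/-!
# Row ME of project RLS (MP_ad8ced_nt): Mertens
-/

set_option autoImplicit false

namespace Pool.Agent.RLS

open Finset

theorem ME_nat_up : ∃ c : ℝ, 0 < c ∧ ∀ k n : ℕ, 2 ≤ k → k ≤ n →
    ∑ p ∈ (Ioc k n).filter Nat.Prime, 1 / (p : ℝ) ≤
      Real.log (Real.log n) - Real.log (Real.log k) + c / Real.log k := by
  obtain ⟨C, hC, hA⟩ := Pool.Agent.helper22.PD.lower_A
  have hl4 : 0 < Real.log 4 := Real.log_pos (by norm_num)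
  refine ⟨Real.log 4 + C, by linarith, ?_⟩
  intro k n hk hkn
  have h := Pool.Agent.Lib.PrimeSums.sum_le_loglog (fun p => 1 / (p : ℝ)) (Real.log 4) C k n hk hkn
    (fun m hm => by
      refine le_trans (le_of_eq (sum_congr rfl fun p _ => ?_))
        (Pool.Agent.Lib.PrimeSums.sum_log_div_le m (by omega))
      ring)
    (hA k hk)
  have hsum : ∑ p ∈ (Ioc k n).filter Nat.Prime, 1 / (p : ℝ)
      = ∑ p ∈ Nat.primesLE n, 1 / (p : ℝ) - ∑ p ∈ Nat.primesLE k, 1 / (p : ℝ) := by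
    rw [eq_sub_iff_add_eq, ← sum_union]
    · congr 1
      ext p
      rw [mem_union, mem_filter, mem_Ioc, Nat.mem_primesLE, Nat.mem_primesLE]
      constructor
      · rintro (⟨⟨h1, h2⟩, h3⟩ | ⟨h1, h2⟩)
        · exact ⟨h2, h3⟩
        · exact ⟨h1.trans hkn, h2⟩
      · rintro ⟨h1, h2⟩
        rcases Nat.lt_or_ge k p with h3 | h3
        · exact Or.inl ⟨⟨h3, h1⟩, h2⟩
        · exact Or.inr ⟨h3, h2⟩
    · rw [Finset.disjoint_left]
      intro p hp hp'
      rw [mem_filter, mem_Ioc] at hp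
      rw [Nat.mem_primesLE] at hp'
      omega
  rw [hsum]
  exact h

theorem ME_loglog {a b : ℝ} (ha : 2 ≤ a) (hab : a ≤ b) (h : b ≤ a + 1) :
    Real.log (Real.log a) ≤ Real.log (Real.log b) ∧
      Real.log (Real.log b) ≤ Real.log (Real.log a) + 1 / Real.log a := by
  have hla : 0 < Real.log a := Real.log_pos (by linarith)
  have hlab : Real.log a ≤ Real.log b := Real.log_le_log (by linarith) hab
  have hlb : 0 < Real.log b := by linarith
  refine ⟨Real.log_le_log hla hlab, ?_⟩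
  have h1 : Real.log (Real.log b / Real.log a) ≤ Real.log b / Real.log a - 1 :=
    Real.log_le_sub_one_of_pos (div_pos hlb hla)
  rw [Real.log_div hlb.ne' hla.ne'] at h1
  have h2 : Real.log (b / a) ≤ b / a - 1 := Real.log_le_sub_one_of_pos (div_pos (by linarith) (by linarith))
  rw [Real.log_div (by linarith) (by linarith)] at h2
  have h3 : b / a - 1 ≤ 1 := by
    rw [sub_le_iff_le_add, div_le_iff₀ (by linarith)]
    linarith
  have h4 : Real.log b / Real.log a - 1 ≤ 1 / Real.log a := by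
    rw [sub_le_iff_le_add, div_le_iff₀ hla, add_mul, one_mul, div_mul_cancel₀ _ hla.ne']
    linarith
  linarith

theorem ME_low {x : ℝ} (h1 : x ≤ 1 / 2) :
    Real.exp (-(x + 2 * x ^ 2)) ≤ 1 - x := by
  have h2 : x + 2 * x ^ 2 + 1 ≤ Real.exp (x + 2 * x ^ 2) := Real.add_one_le_exp _
  rw [Real.exp_neg, inv_le_iff_one_le_mul₀ (Real.exp_pos _)]
  have h3 : (1 - x) * (x + 2 * x ^ 2 + 1) ≤ (1 - x) * Real.exp (x + 2 * x ^ 2) :=
    mul_le_mul_of_nonneg_left h2 (by linarith)
  nlinarith [mul_nonneg (sq_nonneg x) (by linarith : (0 : ℝ) ≤ 1 - 2 * x)]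

theorem ME : ME_stmt := by
  obtain ⟨C₁, hC₁, hup⟩ := ME_nat_up
  obtain ⟨C₂, hC₂, hlo⟩ := Pool.Agent.helper22.PD.mertens_second
  set c : ℝ := 2 * (C₁ + C₂ + 4) with hc
  have hc0 : 0 < c := by rw [hc]; linarith
  have hl2 : 0 < Real.log 2 := Real.log_pos (by norm_num)
  refine ⟨c * Real.exp (c / Real.log 2), by positivity, ?_⟩
  intro w z hw hwz
  have hz : 2 ≤ z := hw.trans hwz
  set k : ℕ := ⌊w⌋₊ with hk
  set n : ℕ := ⌊z⌋₊ with hn
  have hk2 : 2 ≤ k := Nat.le_floor (by exact_mod_cast hw)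
  have hkn : k ≤ n := Nat.floor_le_floor hwz
  have hn2 : 2 ≤ n := hk2.trans hkn
  have hkR : (2 : ℝ) ≤ (k : ℝ) := by exact_mod_cast hk2
  have hnR : (2 : ℝ) ≤ (n : ℝ) := by exact_mod_cast hn2
  have hknR : (k : ℝ) ≤ (n : ℝ) := by exact_mod_cast hkn
  have hkw : (k : ℝ) ≤ w := Nat.floor_le (by linarith)
  have hwk : w ≤ (k : ℝ) + 1 := (Nat.lt_floor_add_one w).le
  have hnz : (n : ℝ) ≤ z := Nat.floor_le (by linarith)
  have hzn : z ≤ (n : ℝ) + 1 := (Nat.lt_floor_add_one z).le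
  have hPP : PP w z = (Ioc k n).filter Nat.Prime := by
    ext p
    rw [PP, mem_filter, mem_filter, mem_range, mem_Ioc]
    have e1 : w < (p : ℝ) ↔ k < p := (Nat.floor_lt (by linarith)).symm
    rw [e1]
    constructor
    · rintro ⟨a, b, d⟩
      exact ⟨⟨d, by omega⟩, b⟩
    · rintro ⟨⟨a, b⟩, d⟩
      exact ⟨by omega, d, a⟩
  have hlk : 0 < Real.log k := Real.log_pos (by linarith)
  have hln : 0 < Real.log n := Real.log_pos (by linarith)
  have hlw : 0 < Real.log w := Real.log_pos (by linarith)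
  have hlz : 0 < Real.log z := Real.log_pos (by linarith)
  have hlkn : Real.log k ≤ Real.log n := Real.log_le_log (by linarith) hknR
  have hlwz : Real.log w ≤ Real.log z := Real.log_le_log (by linarith) hwz
  have hw2k : Real.log w ≤ 2 * Real.log k := by
    have h1 : w ≤ (k : ℝ) ^ 2 := by nlinarith
    have h2 := Real.log_le_log (by linarith) h1
    rw [Real.log_pow] at h2
    exact_mod_cast h2
  have hik : 1 / Real.log k ≤ 2 / Real.log w := by
    rw [div_le_div_iff₀ hlk hlw]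
    linarith
  have hin : 1 / Real.log n ≤ 2 / Real.log w := by
    refine le_trans ?_ hik
    exact one_div_le_one_div_of_le hlk hlkn
  have hkk : 1 / (k : ℝ) ≤ 2 / Real.log w := by
    refine le_trans ?_ hik
    apply one_div_le_one_div_of_le hlk
    have := Real.log_le_sub_one_of_pos (show 0 < (k : ℝ) by linarith)
    linarith
  set S : ℝ := ∑ p ∈ (Ioc k n).filter Nat.Prime, 1 / (p : ℝ) with hS
  obtain ⟨a1, a2⟩ := ME_loglog hkR hkw hwk
  obtain ⟨b1, b2⟩ := ME_loglog hnR hnz hzn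
  have hR : Real.log (Real.log w / Real.log z) = Real.log (Real.log w) - Real.log (Real.log z) :=
    Real.log_div hlw.ne' hlz.ne'
  have hu := hup k n hk2 hkn
  have hl := hlo k n hk2 hkn
  have hC1 : C₁ / Real.log k ≤ C₁ * (2 / Real.log w) := by
    rw [div_eq_mul_one_div]
    exact mul_le_mul_of_nonneg_left hik hC₁.le
  have hC2 : C₂ / Real.log k ≤ C₂ * (2 / Real.log w) := by
    rw [div_eq_mul_one_div]
    exact mul_le_mul_of_nonneg_left hik hC₂.le
  have hcw : c / Real.log w = C₁ * (2 / Real.log w) + C₂ * (2 / Real.log w) + 4 * (2 / Real.log w) := by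
    rw [hc]
    ring
  have h2w : 0 ≤ 2 / Real.log w := by positivity
  have hC1' : 0 ≤ C₁ * (2 / Real.log w) := by positivity
  have hC2' : 0 ≤ C₂ * (2 / Real.log w) := by positivity
  set r : ℝ := Real.log w / Real.log z with hr
  have hr0 : 0 < r := by positivity
  have hr1 : r ≤ 1 := by rw [hr, div_le_one hlz]; exact hlwz
  set δ : ℝ := c / Real.log w with hδ
  have hδ0 : 0 ≤ δ := by positivity
  -- bounds for the prime sum
  have hS1 : -S ≤ Real.log r + δ := by
    rw [hR]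
    linarith
  have hT : ∑ p ∈ (Ioc k n).filter Nat.Prime, (1 / (p : ℝ)) ^ 2 ≤ 1 / (k : ℝ) := by
    have h1 := sum_Ioc_inv_sq_le_sub (α := ℝ) (show k ≠ 0 by omega) hkn
    have h3 : ∑ p ∈ (Ioc k n).filter Nat.Prime, (1 / (p : ℝ)) ^ 2 ≤
        ∑ p ∈ Ioc k n, ((p : ℝ) ^ 2)⁻¹ := by
      have h4 : ∑ p ∈ (Ioc k n).filter Nat.Prime, (1 / (p : ℝ)) ^ 2 =
          ∑ p ∈ (Ioc k n).filter Nat.Prime, ((p : ℝ) ^ 2)⁻¹ :=
        sum_congr rfl fun p _ => by rw [one_div, inv_pow]
      rw [h4]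
      exact sum_le_sum_of_subset_of_nonneg (filter_subset _ _) fun p _ _ => by positivity
    have h5 : 0 ≤ ((n : ℝ))⁻¹ := by positivity
    rw [one_div]
    linarith
  have hS2 : Real.log r - δ ≤ -(S + 2 * ∑ p ∈ (Ioc k n).filter Nat.Prime, (1 / (p : ℝ)) ^ 2) := by
    rw [hR]
    linarith
  have hup2 : VV (fun p : ℕ => 1 / (p : ℝ)) (PP w z) ≤ r * Real.exp δ := by
    rw [hPP, VV]
    have h1 : ∏ p ∈ (Ioc k n).filter Nat.Prime, (1 - 1 / (p : ℝ)) ≤
        ∏ p ∈ (Ioc k n).filter Nat.Prime, Real.exp (-(1 / (p : ℝ))) := by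
      apply prod_le_prod
      · intro p hp
        rw [mem_filter] at hp
        have h2 : (1 : ℝ) ≤ p := by exact_mod_cast hp.2.one_le
        have h3 : 1 / (p : ℝ) ≤ 1 := by
          rw [div_le_one (by linarith)]
          exact h2
        linarith
      · intro p hp
        have := Real.add_one_le_exp (-(1 / (p : ℝ)))
        linarith
    refine h1.trans ?_
    rw [← Real.exp_sum, sum_neg_distrib]
    have h2 : Real.exp (-S) ≤ Real.exp (Real.log r + δ) := Real.exp_le_exp.2 hS1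
    rw [Real.exp_add, Real.exp_log hr0] at h2
    exact h2
  have hlo2 : r * Real.exp (-δ) ≤ VV (fun p : ℕ => 1 / (p : ℝ)) (PP w z) := by
    rw [hPP, VV]
    have h1 : ∏ p ∈ (Ioc k n).filter Nat.Prime, Real.exp (-(1 / (p : ℝ) + 2 * (1 / (p : ℝ)) ^ 2)) ≤
        ∏ p ∈ (Ioc k n).filter Nat.Prime, (1 - 1 / (p : ℝ)) := by
      apply prod_le_prod
      · intro p hp
        exact (Real.exp_pos _).le
      · intro p hp
        rw [mem_filter] at hp
        apply ME_low
        have h2 : (2 : ℝ) ≤ p := by exact_mod_cast hp.2.two_le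
        exact one_div_le_one_div_of_le (by norm_num) h2
    refine le_trans ?_ h1
    rw [← Real.exp_sum, sum_neg_distrib, sum_add_distrib, ← mul_sum]
    have h2 := Real.exp_le_exp.2 hS2
    rw [sub_eq_add_neg, Real.exp_add, Real.exp_log hr0] at h2
    exact h2
  have hδ2 : δ ≤ c / Real.log 2 := by
    rw [hδ]
    exact div_le_div_of_nonneg_left hc0.le hl2 (Real.log_le_log (by norm_num) hw)
  have hE1 : Real.exp δ ≤ Real.exp (c / Real.log 2) := Real.exp_le_exp.2 hδ2
  have hE0 : 1 ≤ Real.exp (c / Real.log 2) := Real.one_le_exp (by positivity)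
  have hgoal : c * Real.exp (c / Real.log 2) / Real.log w = δ * Real.exp (c / Real.log 2) := by
    rw [hδ]
    ring
  rw [hgoal, abs_le]
  have hd1 : 1 - δ ≤ Real.exp (-δ) := by
    have := Real.add_one_le_exp (-δ)
    linarith
  constructor
  · have h1 : r * (1 - δ) ≤ r * Real.exp (-δ) := mul_le_mul_of_nonneg_left hd1 hr0.le
    have h2 : r * δ ≤ 1 * δ := mul_le_mul_of_nonneg_right hr1 hδ0
    have h3 : δ * 1 ≤ δ * Real.exp (c / Real.log 2) := mul_le_mul_of_nonneg_left hE0 hδ0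
    nlinarith
  · have h4 : Real.exp δ * (1 - δ) ≤ 1 := by
      have h5 : Real.exp δ * (1 - δ) ≤ Real.exp δ * Real.exp (-δ) :=
        mul_le_mul_of_nonneg_left hd1 (Real.exp_pos _).le
      rw [← Real.exp_add, add_neg_cancel, Real.exp_zero] at h5
      exact h5
    have h6 : Real.exp δ - 1 ≤ δ * Real.exp δ := by nlinarith
    have h7 : δ * Real.exp δ ≤ δ * Real.exp (c / Real.log 2) :=
      mul_le_mul_of_nonneg_left hE1 hδ0
    have h8 : 0 ≤ Real.exp δ - 1 := by
      have := Real.one_le_exp hδ0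
      linarith
    have h9 : r * (Real.exp δ - 1) ≤ 1 * (Real.exp δ - 1) := mul_le_mul_of_nonneg_right hr1 h8
    nlinarith

end Pool.Agent.RLS
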